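import Pool.Agent.Helper82.IW.Goals

/-! Project IW, packet QUAD: the pointwise quadratic form inequality. -/

namespace Pool.Agent.Helper13.IW

open Complex Pool.Agent.Helper82.IW
open scoped ComplexConjugate

theorem exists_unit (H : ℂ) :
    ∃ u : ℂ, ‖u‖ = 1 ∧ ∀ w : ℂ, (conj H * w).re = ‖H‖ * (u * w).re := by
  by_cases h : H = 0
  · exact ⟨1, by simp, fun w => by simp [h]⟩
  · have hn : (‖H‖ : ℝ) ≠ 0 := norm_ne_zero_iff.2 h
    have hn' : (‖H‖ : ℂ) ≠ 0 := by exact_mod_cast hn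
    refine ⟨conj H / (‖H‖ : ℂ), ?_, fun w => ?_⟩
    · rw [norm_div, Complex.norm_conj, Complex.norm_real, norm_norm, div_self hn]
    · have h1 : conj H * w = (‖H‖ : ℂ) * (conj H / (‖H‖ : ℂ) * w) := by
        field_simp
      calc (conj H * w).re = ((‖H‖ : ℂ) * (conj H / (‖H‖ : ℂ) * w)).re := by rw [← h1]
        _ = _ := Complex.re_ofReal_mul _ _

theorem norm_real_add (x y : ℝ) : ‖(x : ℂ) + I * (y : ℂ)‖ = Real.sqrt (x ^ 2 + y ^ 2) := by
  rw [mul_comm]; exact Complex.norm_add_mul_I x y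

theorem geo (p q : ℂ) : ‖p + I * q‖ ≤
    Real.sqrt (p.re ^ 2 + q.re ^ 2) + Real.sqrt (p.im ^ 2 + q.im ^ 2) := by
  have h : p + I * q = ((p.re : ℂ) + I * (q.re : ℂ)) + I * ((p.im : ℂ) + I * (q.im : ℂ)) := by
    apply Complex.ext <;> simp <;> ring
  rw [h]
  refine (norm_add_le _ _).trans ?_
  rw [norm_mul, Complex.norm_I, one_mul, norm_real_add, norm_real_add]

theorem norm_sq_re_im (p : ℂ) : ‖p‖ ^ 2 = p.re ^ 2 + p.im ^ 2 := by
  rw [← Complex.normSq_eq_norm_sq, Complex.normSq_apply]; ring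

theorem QUAD : S_QUAD := by
  intro H hx hy R ε τ c t η ν P hε hR hτ0 hτ1 hη hc hP0 hPc ht0 hRt rx ry
  have hR0 : 0 < R := by rw [hR]; positivity
  have hR2 : R ^ 2 = ‖H‖ ^ 2 + ε ^ 2 := by rw [hR, Real.sq_sqrt (by positivity)]
  have hHR : ‖H‖ ≤ R := by
    refine abs_le_of_sq_le_sq' ?_ hR0.le |>.2
    have := sq_nonneg ε
    linarith
  obtain ⟨u, hu, hre⟩ := exists_unit H
  set b : ℝ := ‖H‖ / R with hb
  have hb0 : 0 ≤ b := by positivity
  have hb1 : b ≤ 1 := by rw [hb, div_le_one hR0]; exact hHR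
  set p : ℂ := u * hx with hp
  set q : ℂ := u * hy with hq
  have hpn : ‖hx‖ ^ 2 = p.re ^ 2 + p.im ^ 2 := by
    rw [← norm_sq_re_im, hp, norm_mul, hu, one_mul]
  have hqn : ‖hy‖ ^ 2 = q.re ^ 2 + q.im ^ 2 := by
    rw [← norm_sq_re_im, hq, norm_mul, hu, one_mul]
  have hrx : rx = b * p.re := by
    show (conj H * hx).re / R = b * p.re
    rw [hre, hb]; ring
  have hry : ry = b * q.re := by
    show (conj H * hy).re / R = b * q.re
    rw [hre, hb]; ring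
  set A : ℝ := Real.sqrt (p.re ^ 2 + q.re ^ 2) with hA
  set B : ℝ := Real.sqrt (p.im ^ 2 + q.im ^ 2) with hB
  have hA0 : 0 ≤ A := Real.sqrt_nonneg _
  have hB0 : 0 ≤ B := Real.sqrt_nonneg _
  have hA2 : A ^ 2 = p.re ^ 2 + q.re ^ 2 := Real.sq_sqrt (by positivity)
  have hB2 : B ^ 2 = p.im ^ 2 + q.im ^ 2 := Real.sq_sqrt (by positivity)
  have hX : Real.sqrt (rx ^ 2 + ry ^ 2) = b * A := by
    have h1 : rx ^ 2 + ry ^ 2 = (b * A) ^ 2 := by rw [hrx, hry, mul_pow b A, hA2]; ring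
    rw [h1, Real.sqrt_sq (by positivity)]
  have hX2 : rx ^ 2 + ry ^ 2 = (b * A) ^ 2 := by rw [hrx, hry, mul_pow b A, hA2]; ring
  have hZ : ‖hx + I * hy‖ ≤ A + B := by
    have h1 : ‖hx + I * hy‖ = ‖p + I * q‖ := by
      have h2 : p + I * q = u * (hx + I * hy) := by rw [hp, hq]; ring
      rw [h2, norm_mul, hu, one_mul]
    rw [h1]; exact geo p q
  have hN2 : ‖hx‖ ^ 2 + ‖hy‖ ^ 2 - (rx ^ 2 + ry ^ 2) = (1 - b ^ 2) * A ^ 2 + B ^ 2 := by
    rw [hX2, hpn, hqn, hB2, mul_pow b A]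
    have : p.re ^ 2 + p.im ^ 2 + (q.re ^ 2 + q.im ^ 2) = A ^ 2 + (p.im ^ 2 + q.im ^ 2) := by
      rw [hA2]; ring
    rw [this]; ring
  have hb2 : b ^ 2 ≤ 1 := pow_le_one₀ hb0 hb1
  rw [hX, hX2]
  rw [← hX2, hN2, hX2]
  set N2 : ℝ := (1 - b ^ 2) * A ^ 2 + B ^ 2 with hN2def
  have hN0 : 0 ≤ N2 := by
    have : 0 ≤ (1 - b ^ 2) * A ^ 2 := mul_nonneg (by linarith) (sq_nonneg _)
    positivity
  refine ⟨hN0, ?_⟩
  set S : ℝ := Real.sqrt (2 * N2) with hS
  have hS0 : 0 ≤ S := Real.sqrt_nonneg _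
  have hS2 : S ^ 2 = 2 * N2 := Real.sq_sqrt (by linarith)
  set X : ℝ := b * A with hXdef
  have hX0 : 0 ≤ X := by positivity
  have hZ2 : ‖hx + I * hy‖ ≤ X + S := by
    have h1 : (1 - b) * A + B ≤ S := by
      rw [hS]
      refine Real.le_sqrt_of_sq_le ?_
      have h2 : 0 ≤ ((1 - b) * A - B) ^ 2 := sq_nonneg _
      have h3 : 0 ≤ 4 * b * (1 - b) * A ^ 2 := by
        have : 0 ≤ 1 - b := by linarith
        positivity
      have h4 : 2 * N2 - ((1 - b) * A + B) ^ 2 =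
          ((1 - b) * A - B) ^ 2 + 4 * b * (1 - b) * A ^ 2 := by rw [hN2def]; ring
      linarith
    have h2 : A + B = X + ((1 - b) * A + B) := by rw [hXdef]; ring
    linarith
  have hP1 : P ≤ 1 := by linarith
  have hc0 : 0 ≤ c := hP0.trans hPc
  have h1 : η * (N2 / R) ≤ (1 - τ * c) * (N2 / R) := by
    refine mul_le_mul_of_nonneg_right ?_ (by positivity)
    have : τ * c ≤ 1 * c := mul_le_mul_of_nonneg_right hτ1 hc0
    linarith
  have h2 : t * P * X * ‖hx + I * hy‖ ≤ c * t * X ^ 2 + t * X * S := by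
    have h3 : t * P * X * ‖hx + I * hy‖ ≤ t * P * X * (X + S) :=
      mul_le_mul_of_nonneg_left hZ2 (by positivity)
    have h4 : P * (t * X ^ 2) ≤ c * (t * X ^ 2) := mul_le_mul_of_nonneg_right hPc (by positivity)
    have h5 : P * (t * X * S) ≤ 1 * (t * X * S) := mul_le_mul_of_nonneg_right hP1 (by positivity)
    have h6 : t * P * X * (X + S) = P * (t * X ^ 2) + P * (t * X * S) := by ring
    have h7 : c * (t * X ^ 2) = c * t * X ^ 2 := by ring
    rw [h6] at h3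
    linarith
  have h3 : R * t ^ 2 * X ^ 2 / (2 * η) ≤ ν / (4 * η) * (t * X ^ 2) := by
    have h4 : R * t ^ 2 * X ^ 2 / (2 * η) = (R * t) * ((t * X ^ 2) / (2 * η)) := by ring
    have h5 : ν / (4 * η) * (t * X ^ 2) = (ν / 2) * ((t * X ^ 2) / (2 * η)) := by
      field_simp; ring
    rw [h4, h5]
    exact mul_le_mul_of_nonneg_right hRt (by positivity)
  have h4 : η * (N2 / R) - t * X * S + R * t ^ 2 * X ^ 2 / (2 * η) =
      (η * S - R * t * X) ^ 2 / (2 * R * η) := by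
    have h5 : N2 = S ^ 2 / 2 := by linarith
    rw [h5]
    field_simp
    ring
  have h5 : 0 ≤ (η * S - R * t * X) ^ 2 / (2 * R * η) := by positivity
  have h6 : -(ν / (4 * η)) * (t * X ^ 2) = -(ν / (4 * η) * (t * X ^ 2)) := by ring
  rw [h6]
  linarith

end Pool.Agent.Helper13.IW
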